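import Pool.Agent.H70.RC.Targets

/-!
# Being good is a formula
-/

set_option autoImplicit false
set_option linter.unusedSectionVars false

namespace Pool.Agent.H64.RC

open Pool.Agent.H6.NB Pool.Agent.H70.RC

section Sg

variable {X : Type} (Z : ℕ)

/-- a formula of depth `d` up to a sign -/
def Sg (d : ℕ) (P : (X → Bool) → Prop) : Prop :=
  ∃ (f : (X → Bool) → Bool) (b : Bool), Cl X Z d f ∧ ∀ y, (f y = b ↔ P y)

variable {Z} {d : ℕ}

theorem Sg.not {P : (X → Bool) → Prop} (h : Sg Z d P) : Sg Z d fun y => ¬ P y := by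
  obtain ⟨f, b, h1, h2⟩ := h
  refine ⟨f, !b, h1, fun y => ?_⟩
  show f y = !b ↔ ¬ P y
  rw [← h2]
  cases f y <;> cases b <;> simp

theorem Sg.mono (hCLB : Pool.Agent.H6.NB.T_CLB) (hZ : 2 ≤ Z) {d' : ℕ} {P : (X → Bool) → Prop}
    (h : Sg Z d P) (hd : d ≤ d') : Sg Z d' P := by
  obtain ⟨f, b, h1, h2⟩ := h
  exact ⟨f, b, (hCLB X Z hZ).2.1 _ _ _ hd h1, h2⟩

theorem Sg.congr {P Q : (X → Bool) → Prop} (h : Sg Z d P) (hPQ : ∀ y, P y ↔ Q y) : Sg Z d Q := by
  obtain ⟨f, b, h1, h2⟩ := h
  exact ⟨f, b, h1, fun y => (h2 y).trans (hPQ y)⟩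

theorem Sg.const (hCLB : Pool.Agent.H6.NB.T_CLB) (hZ : 2 ≤ Z) (P : Prop) :
    Sg Z d fun _ : X → Bool => P := by
  classical
  exact ⟨fun _ => decide P, true, (hCLB X Z hZ).1 _ _, fun y => by simp⟩

open Classical in
theorem Sg.exL (hCLB : Pool.Agent.H6.NB.T_CLB) (hZ : 2 ≤ Z) {α : Type} (L : List α)
    (P : α → (X → Bool) → Prop) (hlen : L.length ≤ Z) (h : ∀ a ∈ L, Sg Z d (P a)) :
    Sg Z (d + 1) fun y => ∃ a ∈ L, P a y := by
  choose! f b h1 h2 using h
  refine ⟨fun y => decide (∃ a ∈ L, P a y), true, ?_, fun y => by simp⟩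
  refine (hCLB X Z hZ).2.2.2.1 d (L.map fun a => (f a, b a)) _ (by simpa using hlen) ?_ ?_
  · intro c hc
    obtain ⟨a, ha, rfl⟩ := List.mem_map.1 hc
    exact h1 a ha
  · intro y
    rw [decide_eq_true_iff]
    constructor
    · rintro ⟨a, ha, hp⟩
      exact ⟨_, List.mem_map.2 ⟨a, ha, rfl⟩, (h2 a ha y).2 hp⟩
    · rintro ⟨c, hc, hp⟩
      obtain ⟨a, ha, rfl⟩ := List.mem_map.1 hc
      exact ⟨a, ha, (h2 a ha y).1 hp⟩

theorem Sg.allL (hCLB : Pool.Agent.H6.NB.T_CLB) (hZ : 2 ≤ Z) {α : Type} (L : List α)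
    (P : α → (X → Bool) → Prop) (hlen : L.length ≤ Z) (h : ∀ a ∈ L, Sg Z d (P a)) :
    Sg Z (d + 1) fun y => ∀ a ∈ L, P a y := by
  have h1 := (Sg.exL hCLB hZ L (fun a y => ¬ P a y) hlen (fun a ha => (h a ha).not)).not
  refine h1.congr fun y => ?_
  push Not
  rfl

open Classical in
theorem Sg.exF (hCLB : Pool.Agent.H6.NB.T_CLB) (hZ : 2 ≤ Z) {ι : Type} [Fintype ι]
    (P : ι → (X → Bool) → Prop) (hc : Fintype.card ι ≤ Z) (h : ∀ i, Sg Z d (P i)) :
    Sg Z (d + 1) fun y => ∃ i, P i y := by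
  choose f b h1 h2 using h
  refine ⟨fun y => decide (∃ i, P i y), true, ?_, fun y => by simp⟩
  refine (hCLB X Z hZ).2.2.1 d ι f b _ hc h1 ?_
  intro y
  rw [decide_eq_true_iff]
  exact exists_congr fun i => (h2 i y).symm

theorem Sg.and (hCLB : Pool.Agent.H6.NB.T_CLB) (hZ : 2 ≤ Z) {P Q : (X → Bool) → Prop}
    (hP : Sg Z d P) (hQ : Sg Z d Q) : Sg Z (d + 1) fun y => P y ∧ Q y := by
  have h1 := Sg.allL hCLB hZ [P, Q] (fun R y => R y) (by simpa using hZ) (by
    intro a ha
    simp only [List.mem_cons, List.not_mem_nil, or_false] at ha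
    rcases ha with rfl | rfl
    · exact hP
    · exact hQ)
  refine h1.congr fun y => ?_
  simp

open Classical in
theorem Sg.cl (hCLB : Pool.Agent.H6.NB.T_CLB) (hZ : 2 ≤ Z) {P : (X → Bool) → Prop}
    (h : Sg Z d P) : Cl X Z (d + 1) fun y => decide (P y) := by
  obtain ⟨f, b, h1, h2⟩ := h
  refine (hCLB X Z hZ).2.2.2.1 d [(f, b)] _ (by simp; omega) ?_ ?_
  · intro c hc
    rw [List.mem_singleton] at hc
    rw [hc]
    exact h1
  · intro y
    rw [decide_eq_true_iff, ← h2]
    simp

end Sg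

section

variable {X W S : Type} [DecidableEq S]

/-- the rounds of a run: terms and known bits -/
def rnds (st : W → Option S) (β : S → Bool) : List (Term W) → List (S × Bool) →
    List (Term W × List (S × Bool))
  | [], _ => []
  | T :: Ts, κ => (T, κ) :: rnds st β Ts ((T.filterMap fun p => (st p.1).map fun s => (s, β s)) ++ κ)

theorem rnds_length (st : W → Option S) (β : S → Bool) (Ts : List (Term W)) :
    ∀ κ, (rnds st β Ts κ).length = Ts.length := by
  induction Ts with
  | nil => intro κ; rfl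
  | cons T Ts ih => intro κ; simp [rnds, ih]

theorem rnds_mem (st : W → Option S) (β : S → Bool) (Ts : List (Term W)) :
    ∀ κ, ∀ q ∈ rnds st β Ts κ, q.1 ∈ Ts := by
  induction Ts with
  | nil => intro κ q hq; simp [rnds] at hq
  | cons T Ts ih =>
    intro κ q hq
    simp only [rnds, List.mem_cons] at hq
    rcases hq with rfl | hq
    · simp
    · exact List.mem_cons_of_mem _ (ih _ q hq)

theorem rnds_congr (st : W → Option S) (β β' : S → Bool) (Ts : List (Term W))
    (h : ∀ T ∈ Ts, ∀ p ∈ T, ∀ s, st p.1 = some s → β s = β' s) :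
    ∀ κ, rnds st β Ts κ = rnds st β' Ts κ := by
  induction Ts with
  | nil => intro κ; rfl
  | cons T Ts ih =>
    intro κ
    have h1 : (T.filterMap fun p => (st p.1).map fun s => (s, β s)) =
        T.filterMap fun p => (st p.1).map fun s => (s, β' s) := by
      apply List.filterMap_congr
      intro p hp
      cases hs : st p.1 with
      | none => rfl
      | some s => simp [h T (by simp) p hp s hs]
    simp only [rnds]
    rw [h1, ih (fun T' hT' => h T' (List.mem_cons_of_mem _ hT'))]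

open Classical in
/-- the condition for a round -/
def Rd (st : W → Option S) (bv : W → Bool) (F : DNF W) (β : S → Bool)
    (q : Term W × List (S × Bool)) : Prop :=
  F.find? (fun T => decide (psat (pv st bv q.2) T)) = some q.1 ∧ ¬ Term.Sat (fv st bv β) q.1

theorem run_none (st : W → Option S) (bv : W → Bool) (F : DNF W) (β : S → Bool) (r : ℕ) :
    ∀ κ, run st bv F β r κ = none ↔
      ∃ Ts : List (Term W), Ts.length = r ∧ ∀ q ∈ rnds st β Ts κ, Rd st bv F β q := by
  classical
  induction r with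
  | zero =>
    intro κ
    constructor
    · intro _
      exact ⟨[], rfl, fun q hq => by simp [rnds] at hq⟩
    · intro _
      rfl
  | succ r ih =>
    intro κ
    rw [run]
    constructor
    · intro h
      cases hf : F.find? (fun T => decide (psat (pv st bv κ) T)) with
      | none => rw [hf] at h; simp at h
      | some T =>
        rw [hf] at h
        simp only at h
        split_ifs at h with hs
        rw [ih] at h
        obtain ⟨Ts, hl, hq⟩ := h
        refine ⟨T :: Ts, by simp [hl], ?_⟩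
        intro q hq'
        simp only [rnds, List.mem_cons] at hq'
        rcases hq' with rfl | hq'
        · exact ⟨hf, hs⟩
        · exact hq q hq'
    · rintro ⟨Ts, hl, hq⟩
      cases Ts with
      | nil => simp at hl
      | cons T Ts =>
        have h1 := hq (T, κ) (by simp [rnds])
        have hf : F.find? (fun T => decide (psat (pv st bv κ) T)) = some T := h1.1
        rw [hf]
        simp only
        rw [if_neg h1.2, ih]
        refine ⟨Ts, by simpa using hl, ?_⟩
        intro q hq'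
        exact hq q (by simp only [rnds, List.mem_cons]; exact Or.inr hq')

theorem find_iff {α : Type} (L : List α) (a : α) (ha : a ∈ L) :
    ∃ L1 : List α, L1.length ≤ L.length ∧ (∀ x ∈ L1, x ∈ L) ∧
      ∀ p : α → Bool, L.find? p = some a ↔ p a = true ∧ ∀ x ∈ L1, ¬ p x = true := by
  classical
  obtain ⟨L1, L2, hL, hn⟩ := List.eq_append_cons_of_mem ha
  refine ⟨L1, by rw [hL]; simp, fun x hx => by rw [hL]; simp [hx], fun p => ?_⟩
  rw [hL, List.find?_append]
  constructor
  · intro h
    have hp1 : L1.find? p = none := by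
      cases h1 : L1.find? p with
      | none => rfl
      | some b =>
        rw [h1] at h
        simp only [Option.some_or, Option.some.injEq] at h
        exact absurd (h ▸ List.mem_of_find?_eq_some h1) hn
    rw [hp1, Option.none_or] at h
    refine ⟨List.find?_some h, ?_⟩
    intro x hx
    exact List.find?_eq_none.1 hp1 x hx
  · rintro ⟨h1, h2⟩
    have hp1 : L1.find? p = none := List.find?_eq_none.2 h2
    rw [hp1, Option.none_or, List.find?_cons_of_pos h1]

end

section

variable {X W S : Type} [DecidableEq S] {Z : ℕ} (st : W → Option S) (bv : (X → Bool) → W → Bool)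

theorem sg_bv (hbv : ∀ w, (∃ b, ∀ y, bv y w = b) ∨ ∃ v, ∀ y, bv y w = y v) (w : W) (b : Bool) :
    Sg Z 0 fun y => bv y w = b :=
  ⟨fun y => bv y w, b, hbv w, fun y => Iff.rfl⟩

theorem sg_psat (hCLB : Pool.Agent.H6.NB.T_CLB) (hZ : 2 ≤ Z)
    (hbv : ∀ w, (∃ b, ∀ y, bv y w = b) ∨ ∃ v, ∀ y, bv y w = y v) (κ : List (S × Bool))
    (T : Term W) (hT : T.length ≤ Z) : Sg Z 1 fun y => psat (pv st (bv y) κ) T := by
  refine Sg.allL hCLB hZ T (fun p y => pv st (bv y) κ p.1 = none ∨ pv st (bv y) κ p.1 = some p.2)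
    hT ?_
  intro p _
  cases hs : st p.1 with
  | none =>
    refine (sg_bv bv hbv p.1 p.2).congr fun y => ?_
    simp [pv, hs]
  | some s =>
    refine (Sg.const hCLB hZ (κ.lookup s = none ∨ κ.lookup s = some p.2)).congr fun y => ?_
    simp [pv, hs]

theorem sg_sat (hCLB : Pool.Agent.H6.NB.T_CLB) (hZ : 2 ≤ Z)
    (hbv : ∀ w, (∃ b, ∀ y, bv y w = b) ∨ ∃ v, ∀ y, bv y w = y v) (β : S → Bool)
    (T : Term W) (hT : T.length ≤ Z) : Sg Z 1 fun y => Term.Sat (fv st (bv y) β) T := by
  refine Sg.allL hCLB hZ T (fun p y => fv st (bv y) β p.1 = p.2) hT ?_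
  intro p _
  cases hs : st p.1 with
  | none =>
    refine (sg_bv bv hbv p.1 p.2).congr fun y => ?_
    simp [fv, hs]
  | some s =>
    refine (Sg.const hCLB hZ (β s = p.2)).congr fun y => ?_
    simp [fv, hs]

theorem sg_rd (hCLB : Pool.Agent.H6.NB.T_CLB) (hZ : 2 ≤ Z)
    (hbv : ∀ w, (∃ b, ∀ y, bv y w = b) ∨ ∃ v, ∀ y, bv y w = y v) (β : S → Bool) (F : DNF W)
    (hF : F.length ≤ Z) (hT : ∀ T ∈ F, T.length ≤ Z) (q : Term W × List (S × Bool)) :
    Sg Z 4 fun y => Rd st (bv y) F β q := by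
  classical
  by_cases hq : q.1 ∈ F
  · obtain ⟨L1, hl1, hl2, hl3⟩ := find_iff F q.1 hq
    have h1 : Sg Z 2 fun y => ∀ T ∈ L1, ¬ psat (pv st (bv y) q.2) T :=
      Sg.allL hCLB hZ L1 (fun T y => ¬ psat (pv st (bv y) q.2) T) (hl1.trans hF)
        (fun T hT' => (sg_psat st bv hCLB hZ hbv q.2 T (hT T (hl2 T hT'))).not)
    have h2 : Sg Z 2 fun y => psat (pv st (bv y) q.2) q.1 :=
      (sg_psat st bv hCLB hZ hbv q.2 q.1 (hT _ hq)).mono hCLB hZ (by norm_num)
    have h3 : Sg Z 3 fun y => ¬ Term.Sat (fv st (bv y) β) q.1 :=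
      ((sg_sat st bv hCLB hZ hbv β q.1 (hT _ hq)).not).mono hCLB hZ (by norm_num)
    have h4 := (h2.and hCLB hZ h1).and hCLB hZ h3
    refine h4.congr fun y => ?_
    unfold Rd
    rw [hl3]
    simp
  · refine (Sg.const hCLB hZ False).congr fun _ => ?_
    constructor
    · intro h
      exact h.elim
    · intro h
      exact hq (List.mem_of_find?_eq_some h.1)

theorem bad_iff (k t r : ℕ) (F : DNF W) (hF : F.length ≤ 2 ^ k) (hT : ∀ T ∈ F, T.length ≤ t) :
    ∃ (tt : (Fin r → Fin (2 ^ k) × (Fin t → Bool)) → List (Term W))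
      (bb : (Fin r → Fin (2 ^ k) × (Fin t → Bool)) → S → Bool), (∀ c, (tt c).length = r) ∧
      ∀ bw : W → Bool, Bad st bw F r ↔ ∃ c, ∀ q ∈ rnds st (bb c) (tt c) [], Rd st bw F (bb c) q := by
  classical
  let tm : (Fin r → Fin (2 ^ k) × (Fin t → Bool)) → Fin r → Term W := fun c l => F.getD (c l).1 []
  let Mt : (Fin r → Fin (2 ^ k) × (Fin t → Bool)) → (S → Bool) → Prop := fun c β =>
    ∀ (l : Fin r) (x : Fin t) (p : W × Bool) (s : S), (tm c l)[x.val]? = some p → st p.1 = some s →
      β s = (c l).2 x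
  let bb : (Fin r → Fin (2 ^ k) × (Fin t → Bool)) → S → Bool := fun c =>
    if h : ∃ β, Mt c β then h.choose else fun _ => false
  refine ⟨fun c => List.ofFn (tm c), bb, fun c => by simp, fun bw => ?_⟩
  constructor
  · rintro ⟨β, hβ⟩
    rw [run_none] at hβ
    obtain ⟨Ts, hl, hq⟩ := hβ
    have hmem : ∀ T ∈ Ts, T ∈ F := by
      -- every term occurs in a round
      have haux : ∀ (Ts : List (Term W)) (κ : List (S × Bool)),
          (∀ q ∈ rnds st β Ts κ, Rd st bw F β q) → ∀ T ∈ Ts, T ∈ F := by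
        intro Ts
        induction Ts with
        | nil => intro κ _ T hT'; simp at hT'
        | cons T0 Ts ih =>
          intro κ h T hT'
          rcases List.mem_cons.1 hT' with rfl | hT'
          · have h1 := h (T, κ) (by simp [rnds])
            exact List.mem_of_find?_eq_some h1.1
          · exact ih _ (fun q hq => h q (by simp only [rnds, List.mem_cons]; exact Or.inr hq)) T hT'
      exact haux Ts [] hq
    have hget : ∀ l : Fin r, Ts[l.val]'(by rw [hl]; exact l.2) ∈ F := fun l =>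
      hmem _ (List.getElem_mem _)
    have hex : ∀ l : Fin r, ∃ i : Fin (2 ^ k), F.getD i [] = Ts[l.val]'(by rw [hl]; exact l.2) := by
      intro l
      obtain ⟨i, hi, he⟩ := List.mem_iff_getElem.1 (hget l)
      refine ⟨⟨i, by omega⟩, ?_⟩
      rw [List.getD_eq_getElem _ _ hi]
      exact he
    choose i hi using hex
    let c : Fin r → Fin (2 ^ k) × (Fin t → Bool) := fun l =>
      (i l, fun x => match (F.getD (i l) [])[x.val]? with
        | none => false
        | some p => match st p.1 with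
          | none => false
          | some s => β s)
    have hMβ : Mt c β := by
      intro l x p s hp hs
      have hp' : (F.getD (i l) [])[x.val]? = some p := hp
      simp only [c, hp', hs]
    have hM : Mt c (bb c) := by
      have hx : ∃ β, Mt c β := ⟨β, hMβ⟩
      simp only [bb]
      rw [dif_pos hx]
      exact hx.choose_spec
    have hTs : Ts = List.ofFn (tm c) := by
      apply List.ext_getElem
      · simp [hl]
      · intro n h1 h2
        have hn : n < r := by omega
        rw [List.getElem_ofFn]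
        exact (hi ⟨n, hn⟩).symm
    have hag : ∀ T ∈ Ts, ∀ p ∈ T, ∀ s, st p.1 = some s → β s = bb c s := by
      intro T hT' p hp s hs
      obtain ⟨n, hn, rfl⟩ := List.mem_iff_getElem.1 hT'
      obtain ⟨x, hx, rfl⟩ := List.mem_iff_getElem.1 hp
      have hn' : n < r := by omega
      have hlen := hT _ (hget ⟨n, hn'⟩)
      have hxt : x < t := by
        have : (Ts[n]).length ≤ t := hlen
        omega
      have htm : tm c ⟨n, hn'⟩ = Ts[n] := hi ⟨n, hn'⟩
      have hg : (tm c ⟨n, hn'⟩)[(⟨x, hxt⟩ : Fin t).val]? = some (Ts[n][x]) := by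
        rw [htm]
        exact List.getElem?_eq_getElem hx
      rw [hMβ ⟨n, hn'⟩ ⟨x, hxt⟩ _ s hg hs, hM ⟨n, hn'⟩ ⟨x, hxt⟩ _ s hg hs]
    refine ⟨c, ?_⟩
    intro q hq'
    have hq'' : q ∈ rnds st β Ts [] := by
      rw [rnds_congr st β (bb c) Ts hag, hTs]
      exact hq'
    have h1 := hq q hq''
    refine ⟨h1.1, ?_⟩
    intro hsat
    apply h1.2
    have hqT := rnds_mem st β Ts [] q hq''
    intro p hp
    have h2 := hsat p hp
    cases hs : st p.1 with
    | none => simpa [fv, hs] using h2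
    | some s =>
      have h3 := hag q.1 hqT p hp s hs
      simp only [fv, hs] at h2 ⊢
      rw [h3]
      exact h2
  · rintro ⟨c, hc⟩
    refine ⟨bb c, ?_⟩
    rw [run_none]
    exact ⟨List.ofFn (tm c), by simp, hc⟩

end

theorem pf_ACB (hCLB : Pool.Agent.H6.NB.T_CLB) (_hCNJ : Pool.Agent.H70.EI.T_CNJ) : T_ACB := by
  classical
  intro X W S ι _ _ Z k t r st bv F hZ htZ hrZ hkZ hcZ hι hF hT hbv
  have hbad : ∀ i, Sg Z 6 fun y => Bad st (bv y) (F i) r := by
    intro i
    obtain ⟨tt, bb, h1, h2⟩ := bad_iff st k t r (F i) (hF i) (hT i)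
    have h3 : Sg Z 6 fun y => ∃ c, ∀ q ∈ rnds st (bb c) (tt c) [], Rd st (bv y) (F i) (bb c) q := by
      refine Sg.exF hCLB hZ (fun c y => ∀ q ∈ rnds st (bb c) (tt c) [], Rd st (bv y) (F i) (bb c) q)
        ?_ ?_
      · rw [Fintype.card_fun, Fintype.card_prod, Fintype.card_fun, Fintype.card_fin,
          Fintype.card_fin, Fintype.card_bool, Fintype.card_fin, ← pow_add]
        exact hcZ
      · intro c
        refine Sg.allL hCLB hZ _ (fun q y => Rd st (bv y) (F i) (bb c) q) ?_ ?_
        · rw [rnds_length, h1]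
          exact hrZ
        · intro q _
          exact sg_rd st bv hCLB hZ hbv (bb c) (F i) ((hF i).trans hkZ)
            (fun T hT' => (hT i T hT').trans htZ) q
    exact h3.congr fun y => (h2 (bv y)).symm
  have h4 : Sg Z 7 fun y => ∀ i, ¬ Bad st (bv y) (F i) r := by
    have h5 := (Sg.exF hCLB hZ (fun i y => Bad st (bv y) (F i) r) hι hbad).not
    refine h5.congr fun y => ?_
    push Not
    rfl
  have h6 := h4.cl hCLB hZ
  have h7 := (hCLB X Z hZ).2.1 8 12 _ (by norm_num) h6
  refine cast ?_ h7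
  congr 1
  funext y
  congr

end Pool.Agent.H64.RC
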