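import Pool.Agent.H70.RC.Targets

/-!
# The oracle with junk in the arrays
-/

set_option autoImplicit false

namespace Pool.Agent.H64.RC

open Pool.Agent.H70.RC

theorem pf_BAS (hSTR : T_STR) : T_BAS := by
  refine ⟨fun D p => ?_, fun D w hw => ?_⟩
  · have hex : ∃ q : Ps, str q = str p := ⟨p, rfl⟩
    unfold base
    rw [dif_pos hex]
    have h1 : hex.choose = p := hSTR.1 hex.choose_spec
    rw [h1]
  · unfold base
    rw [dif_neg]
    rintro ⟨p, hp⟩
    exact hw p hp.symm

end Pool.Agent.H64.RC
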